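import Pool.Agent.PFC.DefsB4

/-!
Squad PFC, block B4: the key lemma on frames. For a frame, the Brauer kernel at an
l-subgroup P consists of the fixed vectors killed by the functionals of the fixed points.
-/

namespace Pool.Agent.PFC

open MulAction

/-- The points of Ω fixed by P. -/
noncomputable def fp {H : Type} [Group H] (P : Subgroup H) (Ω : Type) [Fintype Ω]
    [MulAction H Ω] : Finset Ω := by
  classical
  exact Finset.univ.filter (fun ω => ∀ h ∈ P, h • ω = ω)

theorem mem_fp {H : Type} [Group H] (P : Subgroup H) (Ω : Type) [Fintype Ω]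
    [MulAction H Ω] (ω : Ω) : ω ∈ fp P Ω ↔ ∀ h ∈ P, h • ω = ω := by
  classical
  unfold fp
  simp

/-- Existence of a left transversal adapted to the orbit of a point. -/
theorem exTv {H : Type} [Group H] [Finite H] (P : Subgroup H) {Ω : Type} [MulAction H Ω]
    (ω : Ω) : ∃ S : Finset H, IsTv (P ⊓ stabilizer H ω) P S ∧
      (∀ x ∈ S, ∀ y ∈ S, x • ω = y • ω → x = y) ∧
      ∀ h ∈ P, ∃ x ∈ S, x • ω = h • ω := by
  classical
  have : Fintype H := Fintype.ofFinite H
  -- a section of the map from P to the orbit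
  let g : Ω → H := fun ω' => if h : ∃ x ∈ P, x • ω = ω' then h.choose else 1
  have hg : ∀ h ∈ P, g (h • ω) ∈ P ∧ g (h • ω) • ω = h • ω := by
    intro h hh
    have hex : ∃ x ∈ P, x • ω = h • ω := ⟨h, hh, rfl⟩
    have : g (h • ω) = hex.choose := by
      simp only [g]
      rw [dif_pos hex]
    rw [this]
    exact hex.choose_spec
  refine ⟨(Finset.univ.filter (fun h => h ∈ P)).image (fun h => g (h • ω)), ⟨?_, ?_⟩, ?_, ?_⟩
  · intro s hs
    obtain ⟨h, hh, rfl⟩ := Finset.mem_image.1 hs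
    exact (hg h (Finset.mem_filter.1 hh).2).1
  · intro p hp
    refine ⟨g (p • ω), ⟨Finset.mem_image.2 ⟨p, Finset.mem_filter.2 ⟨Finset.mem_univ _, hp⟩, rfl⟩,
      ?_⟩, ?_⟩
    · refine Subgroup.mem_inf.2 ⟨P.mul_mem (P.inv_mem (hg p hp).1) hp, ?_⟩
      rw [mem_stabilizer_iff, mul_smul]
      exact inv_smul_eq_iff.2 (hg p hp).2.symm
    · rintro s ⟨hs, hs2⟩
      obtain ⟨h, hh, rfl⟩ := Finset.mem_image.1 hs
      have hh' := (Finset.mem_filter.1 hh).2
      have h2 := (Subgroup.mem_inf.1 hs2).2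
      rw [mem_stabilizer_iff, mul_smul, inv_smul_eq_iff] at h2
      rw [h2, (hg h hh').2]
  · intro x hx y hy hxy
    obtain ⟨h, hh, rfl⟩ := Finset.mem_image.1 hx
    obtain ⟨k, hk, rfl⟩ := Finset.mem_image.1 hy
    have hh' := (Finset.mem_filter.1 hh).2
    have hk' := (Finset.mem_filter.1 hk).2
    rw [(hg h hh').2, (hg k hk').2] at hxy
    rw [hxy]
  · intro h hh
    exact ⟨g (h • ω), Finset.mem_image.2 ⟨h, Finset.mem_filter.2 ⟨Finset.mem_univ _, hh⟩, rfl⟩,
      (hg h hh).2⟩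

/-- The size of a left transversal is the index. -/
theorem card_tv {H : Type} [Group H] [Finite H] (P' P : Subgroup H) (hle : P' ≤ P)
    (S : Finset H) (hS : IsTv P' P S) : S.card * Nat.card P' = Nat.card P := by
  classical
  have : Fintype H := Fintype.ofFinite H
  have hf : ∀ p : P, ∃ z : S × P', ((z.1 : H) * (z.2 : H)) = p := by
    intro p
    obtain ⟨s, ⟨hs, hs2⟩, -⟩ := hS.2 p p.2
    exact ⟨(⟨s, hs⟩, ⟨_, hs2⟩), by simp⟩
  have hb : Function.Bijective (fun z : S × P' =>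
      (⟨(z.1 : H) * (z.2 : H), P.mul_mem (hS.1 _ z.1.2) (hle z.2.2)⟩ : P)) := by
    constructor
    · rintro ⟨⟨s, hs⟩, ⟨q, hq⟩⟩ ⟨⟨s', hs'⟩, ⟨q', hq'⟩⟩ h
      simp only [Subtype.mk.injEq] at h
      have hp : s * q ∈ P := P.mul_mem (hS.1 _ hs) (hle hq)
      obtain ⟨t, -, ht⟩ := hS.2 (s * q) hp
      have h1 : s = t := ht s ⟨hs, by simpa using hq⟩
      have h2 : s' = t := ht s' ⟨hs', by rw [h]; simpa using hq'⟩
      have h3 : s = s' := h1.trans h2.symm
      subst h3
      have h4 : q = q' := mul_left_cancel h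
      subst h4
      rfl
    · intro p
      obtain ⟨z, hz⟩ := hf p
      exact ⟨z, Subtype.ext hz⟩
  have := Nat.card_congr (Equiv.ofBijective _ hb)
  rw [Nat.card_prod, Nat.card_eq_fintype_card, Fintype.card_coe] at this
  exact this

variable {F H M : Type} [Field F] [Group H] [AddCommGroup M] [Module F M]

theorem mem_Fx {ρ : H →* (M →ₗ[F] M)} {P : Subgroup H} {m : M} :
    m ∈ Fx ρ P ↔ ∀ h ∈ P, ρ h m = m := Iff.rfl

/-- Functionals of fixed points kill the Brauer kernel. -/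
theorem frame_BK {ℓ : ℕ} [Fact ℓ.Prime] [CharP F ℓ] [Finite H]
    {ρ : H →* (M →ₗ[F] M)} {Ω : Type} [Fintype Ω] [MulAction H Ω]
    {b : Ω → M} {c : Ω → (M →ₗ[F] F)} (hfr : IsFr ρ b c) (P : Subgroup H)
    (hP : IsPGroup ℓ P) {m : M} (hm : m ∈ BK ρ P) (ω : Ω) (hω : ∀ h ∈ P, h • ω = ω) :
    c ω m = 0 := by
  classical
  unfold BK at hm
  induction hm using Submodule.span_induction with
  | mem n hn =>
    obtain ⟨P', S, x, hlt, hS, hx, rfl⟩ := hn
    have h1 : ∀ y ∈ S, c ω (ρ y x) = c ω x := by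
      intro y hy
      have h2 := hfr.2.1 y ω x
      rw [hω y (hS.1 y hy)] at h2
      exact h2
    rw [map_sum, Finset.sum_congr rfl h1, Finset.sum_const]
    have hdvd : ℓ ∣ S.card := by
      have hc := card_tv P' P hlt.le S hS
      obtain ⟨k, hk⟩ := (IsPGroup.iff_card).1 hP
      have hdiv : S.card ∣ ℓ ^ k := ⟨_, by rw [← hk]; exact hc.symm⟩
      obtain ⟨j, -, hj⟩ := (Nat.dvd_prime_pow (Fact.out : ℓ.Prime)).1 hdiv
      rcases Nat.eq_zero_or_pos j with h0 | h0
      · exfalso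
        rw [h0, pow_zero] at hj
        rw [hj, one_mul] at hc
        exact hlt.ne (Subgroup.eq_of_le_of_card_ge hlt.le hc.ge)
      · rw [hj]
        exact dvd_pow_self ℓ h0.ne'
    obtain ⟨d, hd⟩ := hdvd
    rw [hd, mul_smul, nsmul_eq_mul, CharP.cast_eq_zero, zero_mul]
  | zero => exact map_zero _
  | add a b _ _ ha hb => rw [map_add, ha, hb, add_zero]
  | smul r a _ ha => rw [map_smul, ha, smul_zero]

/-- The orbit sum of a point which is not fixed lies in the Brauer kernel. -/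
theorem orbit_BK [Finite H]
    {ρ : H →* (M →ₗ[F] M)} {Ω : Type} [Fintype Ω] [MulAction H Ω]
    {b : Ω → M} {c : Ω → (M →ₗ[F] F)} (hfr : IsFr ρ b c) (P : Subgroup H)
    {m : M} (hm : m ∈ Fx ρ P) (T : Finset Ω)
    (hT : ∀ ω ∈ T, ∀ h ∈ P, h • ω ∈ T) (hT2 : ∀ ω ∈ T, ¬ ∀ h ∈ P, h • ω = ω) :
    ∑ ω ∈ T, c ω m • b ω ∈ BK ρ P := by
  classical
  induction hn : T.card using Nat.strong_induction_on generalizing T with
  | _ n ih =>
    rcases T.eq_empty_or_nonempty with rfl | ⟨ω, hω⟩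
    · rw [Finset.sum_empty]
      exact Submodule.zero_mem _
    · obtain ⟨S, hS, hinj, hsur⟩ := exTv P ω
      let O : Finset Ω := S.image (fun x => x • ω)
      have hO : O ⊆ T := by
        intro y hy
        obtain ⟨x, hx, rfl⟩ := Finset.mem_image.1 hy
        exact hT ω hω x (hS.1 x hx)
      have hOst : ∀ y ∈ O, ∀ h ∈ P, h • y ∈ O := by
        intro y hy h hh
        obtain ⟨x, hx, rfl⟩ := Finset.mem_image.1 hy
        obtain ⟨z, hz, hz2⟩ := hsur (h * x) (P.mul_mem hh (hS.1 x hx))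
        refine Finset.mem_image.2 ⟨z, hz, ?_⟩
        rw [hz2, mul_smul]
      have hωO : ω ∈ O := by
        obtain ⟨z, hz, hz2⟩ := hsur 1 P.one_mem
        refine Finset.mem_image.2 ⟨z, hz, ?_⟩
        rw [hz2, one_smul]
      have hrest : ∑ ω ∈ T \ O, c ω m • b ω ∈ BK ρ P := by
        refine ih (T \ O).card ?_ (T \ O) ?_ ?_ rfl
        · rw [← hn]
          exact Finset.card_lt_card (Finset.sdiff_ssubset hO ⟨ω, hωO⟩)
        · intro y hy h hh
          rw [Finset.mem_sdiff] at hy ⊢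
          refine ⟨hT y hy.1 h hh, fun hc => hy.2 ?_⟩
          have := hOst _ hc h⁻¹ (P.inv_mem hh)
          rwa [inv_smul_smul] at this
        · intro y hy
          exact hT2 y (Finset.mem_sdiff.1 hy).1
      have horb : ∑ ω ∈ O, c ω m • b ω ∈ BK ρ P := by
        have h1 : ∑ ω ∈ O, c ω m • b ω = c ω m • ∑ x ∈ S, ρ x (b ω) := by
          rw [Finset.sum_image (by
            intro x hx y hy hxy
            exact hinj x hx y hy hxy), Finset.smul_sum]
          refine Finset.sum_congr rfl ?_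
          intro x hx
          have h2 : c (x • ω) m = c ω m := by
            have h3 := hfr.2.1 x ω m
            rw [hm x (hS.1 x hx)] at h3
            exact h3
          rw [h2, hfr.1]
        rw [h1]
        refine Submodule.smul_mem _ _ (Submodule.subset_span ?_)
        refine ⟨P ⊓ stabilizer H ω, S, b ω, ?_, hS, ?_, rfl⟩
        · refine lt_of_le_of_ne inf_le_left ?_
          intro heq
          apply hT2 ω hω
          intro h hh
          have : h ∈ P ⊓ stabilizer H ω := by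
            rw [heq]
            exact hh
          exact mem_stabilizer_iff.1 (Subgroup.mem_inf.1 this).2
        · intro h hh
          rw [← hfr.1, mem_stabilizer_iff.1 (Subgroup.mem_inf.1 hh).2]
      rw [← Finset.sum_sdiff hO]
      exact Submodule.add_mem _ hrest horb

/-- KEY2: a fixed vector is the sum over the fixed points, modulo the Brauer kernel. -/
theorem frame_sub [Finite H]
    {ρ : H →* (M →ₗ[F] M)} {Ω : Type} [Fintype Ω] [MulAction H Ω]
    {b : Ω → M} {c : Ω → (M →ₗ[F] F)} (hfr : IsFr ρ b c) (P : Subgroup H)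
    {m : M} (hm : m ∈ Fx ρ P) :
    m - ∑ ω ∈ fp P Ω, c ω m • b ω ∈ BK ρ P := by
  classical
  have h1 : m - ∑ ω ∈ fp P Ω, c ω m • b ω = ∑ ω ∈ Finset.univ \ fp P Ω, c ω m • b ω := by
    have h2 := Finset.sum_sdiff (Finset.subset_univ (fp P Ω)) (f := fun ω => c ω m • b ω)
    rw [hfr.2.2 m] at h2
    exact sub_eq_of_eq_add h2.symm
  rw [h1]
  apply orbit_BK hfr P hm
  · intro ω hω h hh
    rw [Finset.mem_sdiff] at hω ⊢
    refine ⟨Finset.mem_univ _, fun hc => hω.2 ?_⟩
    rw [mem_fp] at hc ⊢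
    have h3 : ∀ k ∈ P, k • ω = ω := by
      intro k hk
      have h4 := hc (h * k * h⁻¹) (P.mul_mem (P.mul_mem hh hk) (P.inv_mem hh))
      rw [mul_smul, mul_smul, inv_smul_smul] at h4
      exact smul_left_cancel h h4
    exact h3
  · intro ω hω hc
    exact (Finset.mem_sdiff.1 hω).2 ((mem_fp P Ω ω).2 hc)

/-- KEY1: the Brauer kernel in terms of a frame. -/
theorem frame_iff {ℓ : ℕ} [Fact ℓ.Prime] [CharP F ℓ] [Finite H]
    {ρ : H →* (M →ₗ[F] M)} {Ω : Type} [Fintype Ω] [MulAction H Ω]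
    {b : Ω → M} {c : Ω → (M →ₗ[F] F)} (hfr : IsFr ρ b c) (P : Subgroup H)
    (hP : IsPGroup ℓ P) {m : M} (hm : m ∈ Fx ρ P) :
    m ∈ BK ρ P ↔ ∀ ω : Ω, (∀ h ∈ P, h • ω = ω) → c ω m = 0 := by
  constructor
  · intro h ω hω
    exact frame_BK hfr P hP h ω hω
  · intro h
    have h1 := frame_sub hfr P hm
    rwa [Finset.sum_eq_zero, sub_zero] at h1
    intro ω hω
    rw [h ω ((mem_fp P Ω ω).1 hω), zero_smul]

/-- The Brauer kernel consists of fixed vectors. -/
theorem BK_le_Fx [Finite H] (ρ : H →* (M →ₗ[F] M)) (P : Subgroup H) : BK ρ P ≤ Fx ρ P := by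
  classical
  unfold BK
  rw [Submodule.span_le]
  rintro n ⟨P', S, m, hlt, hS, hm, rfl⟩
  intro h hh
  rw [map_sum]
  -- left multiplication by h permutes the cosets
  have hc : ∀ x ∈ S, ∃ y, (y ∈ S ∧ y⁻¹ * (h * x) ∈ P') := by
    intro x hx
    obtain ⟨y, hy, -⟩ := hS.2 (h * x) (P.mul_mem hh (hS.1 x hx))
    exact ⟨y, hy⟩
  choose! f hf using hc
  refine Finset.sum_bij (fun x _ => f x) (fun x hx => (hf x hx).1) ?_ ?_ ?_
  · intro x hx y hy hxy
    have h1 := (hf x hx).2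
    have h2 := (hf y hy).2
    rw [← hxy] at h2
    have h3 : x⁻¹ * y ∈ P' := by
      have h4 := P'.mul_mem (P'.inv_mem h1) h2
      have h5 : ((f x)⁻¹ * (h * x))⁻¹ * ((f x)⁻¹ * (h * y)) = x⁻¹ * y := by group
      rwa [h5] at h4
    obtain ⟨z, -, hz⟩ := hS.2 y (hS.1 y hy)
    rw [hz x ⟨hx, h3⟩, hz y ⟨hy, by simp [P'.one_mem]⟩]
  · intro y hy
    obtain ⟨x, ⟨hx, hx2⟩, -⟩ := hS.2 (h⁻¹ * y) (P.mul_mem (P.inv_mem hh) (hS.1 y hy))
    refine ⟨x, hx, ?_⟩
    obtain ⟨z, -, hz⟩ := hS.2 (h * x) (P.mul_mem hh (hS.1 x hx))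
    have h1 : y = z := by
      apply hz
      refine ⟨hy, ?_⟩
      have h5 : y⁻¹ * (h * x) = (x⁻¹ * (h⁻¹ * y))⁻¹ := by group
      rw [h5]
      exact P'.inv_mem hx2
    rw [h1]
    exact hz _ (hf x hx)
  · intro x hx
    have h1 := (hf x hx).2
    have h2 : ρ (h * x) m = ρ (f x) m := by
      have h3 : h * x = f x * ((f x)⁻¹ * (h * x)) := by group
      rw [h3, map_mul]
      exact congrArg (ρ (f x)) (hm _ h1)
    rw [← h2, map_mul]
    rfl

end Pool.Agent.PFC
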