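import Pool.Agent.PFC.StmtsB4a

/-!
Squad PFC, row PSX of block B4: removal of the orbits of a frame whose stabiliser has Brauer
quotient zero.
-/

namespace Pool.Agent.PFC.H10

open MulAction

theorem psx_aux (ℓ : ℕ) [Fact ℓ.Prime] (F H M : Type) [Field F] [CharP F ℓ] [Group H] [Finite H]
    [AddCommGroup M] [Module F M] (ρ : H →* (M →ₗ[F] M)) (X : Subgroup H → Prop)
    (hH : IsPGroup ℓ H) (hab : ∀ x y : H, x * y = y * x) (n : ℕ) :
    ∀ (Ω : Type) [Fintype Ω] [MulAction H Ω] (b : Ω → M) (c : Ω → (M →ₗ[F] F)),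
      Fintype.card Ω = n → IsFr ρ b c → (∀ ω : Ω, X (stabilizer H ω)) →
      PS (fun K => X K ∧ ¬ Fx ρ K ≤ BK ρ K) ρ := by
  classical
  induction n using Nat.strong_induction_on with
  | _ n ih =>
    intro Ω _ _ b c hn hfr hX
    by_cases hall : ∀ ω : Ω, ¬ Fx ρ (stabilizer H ω) ≤ BK ρ (stabilizer H ω)
    · exact ⟨Ω, inferInstance, inferInstance, b, c, hfr, fun ω => ⟨hX ω, hall ω⟩⟩
    · obtain ⟨ω0, h0⟩ := not_forall.1 hall
      rw [not_not] at h0
      set K := stabilizer H ω0 with hK
      let O : Set Ω := orbit H ω0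
      have hO : ∀ (h : H) (ω : Ω), h • ω ∈ O ↔ ω ∈ O := by
        intro h ω
        constructor
        · rintro ⟨g, hg⟩
          refine ⟨h⁻¹ * g, ?_⟩
          have hg' : g • ω0 = h • ω := hg
          change (h⁻¹ * g) • ω0 = ω
          rw [mul_smul, hg', inv_smul_smul]
        · rintro ⟨g, hg⟩
          refine ⟨h * g, ?_⟩
          have hg' : g • ω0 = ω := hg
          change (h * g) • ω0 = h • ω
          rw [mul_smul, hg']
      have hfix : ∀ ω ∈ O, ∀ k ∈ K, k • ω = ω := by
        rintro ω ⟨g, hg⟩ k hk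
        have hg' : g • ω0 = ω := hg
        rw [← hg', ← mul_smul, hab k g, mul_smul, mem_stabilizer_iff.1 hk]
      have hKp : IsPGroup ℓ K := hH.to_subgroup K
      have hz : ∀ ω ∈ O, ∀ ω1 ∈ O, c ω1 (b ω) = 0 := by
        intro ω hω ω1 hω1
        refine frame_BK hfr K hKp (h0 ?_) ω1 (hfix ω1 hω1)
        intro k hk
        rw [← hfr.1, hfix ω hω k hk]
      let T : Finset Ω := Finset.univ.filter (fun ω => ω ∈ O)
      have hT : ∀ ω, ω ∈ T ↔ ω ∈ O := fun ω => by simp [T]
      let x : M →ₗ[F] M := ∑ ω ∈ T, (c ω).smulRight (b ω)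
      have hx : ∀ m, x m = ∑ ω ∈ T, c ω m • b ω := by
        intro m
        simp only [x, LinearMap.sum_apply, LinearMap.smulRight_apply]
      have hxx : ∀ m, x (x m) = 0 := by
        intro m
        rw [hx (x m)]
        refine Finset.sum_eq_zero ?_
        intro ω1 hω1
        have : c ω1 (x m) = 0 := by
          rw [hx, map_sum]
          refine Finset.sum_eq_zero ?_
          intro ω hω
          rw [map_smul, hz ω ((hT ω).1 hω) ω1 ((hT ω1).1 hω1), smul_zero]
        rw [this, zero_smul]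
      have hxc : ∀ (h : H) m, x (ρ h m) = ρ h (x m) := by
        intro h m
        rw [hx, hx, map_sum]
        symm
        refine Finset.sum_bij (fun ω _ => h • ω) ?_ ?_ ?_ ?_
        · intro ω hω
          exact (hT _).2 ((hO h ω).2 ((hT ω).1 hω))
        · intro ω _ ω' _ hh
          exact smul_left_cancel h hh
        · intro ω hω
          refine ⟨h⁻¹ • ω, (hT _).2 ((hO h⁻¹ ω).2 ((hT ω).1 hω)), ?_⟩
          exact smul_inv_smul h ω
        · intro ω hω
          rw [map_smul, hfr.2.1, hfr.1]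
      let Ω' : Type := {ω : Ω // ω ∉ O}
      let inst : MulAction H Ω' :=
        { smul := fun h ω => ⟨h • ω.1, fun hc => ω.2 ((hO h ω.1).1 hc)⟩
          one_smul := fun ω => Subtype.ext (one_smul H ω.1)
          mul_smul := fun g h ω => Subtype.ext (mul_smul g h ω.1) }
      have hst : ∀ ω : Ω', stabilizer H ω = stabilizer H ω.1 := by
        intro ω
        ext h
        rw [mem_stabilizer_iff, mem_stabilizer_iff]
        constructor
        · intro hh
          exact congrArg Subtype.val hh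
        · intro hh
          exact Subtype.ext hh
      refine ih (Fintype.card Ω') ?_ Ω' (fun ω => b ω.1 + x (b ω.1)) (fun ω => c ω.1) rfl
        ⟨?_, ?_, ?_⟩ ?_
      · rw [← hn]
        refine Fintype.card_lt_of_injective_of_notMem (fun ω : Ω' => ω.1)
          Subtype.val_injective (b := ω0) ?_
        rintro ⟨ω, hω⟩
        have hω' : ω.1 = ω0 := hω
        exact ω.2 (hω' ▸ mem_orbit_self ω0)
      · intro h ω
        change b (h • ω.1) + x (b (h • ω.1)) = ρ h (b ω.1 + x (b ω.1))
        rw [hfr.1, hxc, map_add]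
      · intro h ω m
        exact hfr.2.1 h ω.1 m
      · intro m
        have h1 : ∑ ω : Ω', c ω.1 m • b ω.1 = m - x m := by
          have h2 : ∑ ω : Ω', c ω.1 m • b ω.1 = ∑ ω ∈ Tᶜ, c ω m • b ω := by
            symm
            refine Finset.sum_subtype Tᶜ ?_ (fun ω => c ω m • b ω)
            intro ω
            rw [Finset.mem_compl, hT]
          rw [h2, hx, eq_sub_iff_add_eq, Finset.sum_compl_add_sum, hfr.2.2]
        have h3 : ∑ ω : Ω', c ω.1 m • (b ω.1 + x (b ω.1)) =
            ∑ ω : Ω', c ω.1 m • b ω.1 + x (∑ ω : Ω', c ω.1 m • b ω.1) := by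
          rw [map_sum, ← Finset.sum_add_distrib]
          refine Finset.sum_congr rfl ?_
          intro ω _
          rw [smul_add, map_smul]
        rw [h3, h1, map_sub, hxx, sub_zero, sub_add_cancel]
      · intro ω
        rw [hst]
        exact hX ω.1

theorem psx : PsxStmt := by
  intro ℓ _ F H M _ _ _ _ _ _ ρ X hH hab hPS
  obtain ⟨Ω, i1, i2, b, c, hfr, hX⟩ := hPS
  exact psx_aux ℓ F H M ρ X hH hab (Fintype.card Ω) Ω b c rfl hfr hX

end Pool.Agent.PFC.H10
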