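import Pool.Agent.PFC.StmtsB4a

/-!
Squad PFC, block B4, rows PSR, PST, PSG (helper49).
-/

namespace Pool.Agent.PFC.H49b

open Pool.Agent.PFC TensorProduct

/-- PSR: restriction along a homomorphism. -/
theorem psr : PsrStmt := by
  intro F H K M _ _ _ _ _ ρ φ X hPS
  obtain ⟨Ω, hF, hA, b, c, hfr, hst⟩ := hPS
  refine ⟨Ω, hF, MulAction.compHom Ω φ, b, c, ⟨?_, ?_, hfr.2.2⟩, ?_⟩
  · intro k ω
    exact hfr.1 (φ k) ω
  · intro k ω m
    exact hfr.2.1 (φ k) ω m
  · intro ω
    refine ⟨MulAction.stabilizer H ω, hst ω, ?_⟩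
    ext k
    rfl

/-- PST: tensor products. -/
theorem pst : PstStmt := by
  intro F H M N _ _ _ _ _ _ ρ σ X Y h1 h2
  obtain ⟨Ω₁, hF1, hA1, b1, c1, hfr1, hst1⟩ := h1
  obtain ⟨Ω₂, hF2, hA2, b2, c2, hfr2, hst2⟩ := h2
  refine ⟨Ω₁ × Ω₂, inferInstance, inferInstance, fun w => b1 w.1 ⊗ₜ[F] b2 w.2,
    fun w => (TensorProduct.lid F F).toLinearMap ∘ₗ TensorProduct.map (c1 w.1) (c2 w.2),
    ⟨?_, ?_, ?_⟩, ?_⟩
  · intro h w
    show b1 (h • w.1) ⊗ₜ[F] b2 (h • w.2) = TensorProduct.map (ρ h) (σ h) _
    rw [TensorProduct.map_tmul, hfr1.1, hfr2.1]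
  · intro h w m
    show (TensorProduct.lid F F) (TensorProduct.map (c1 (h • w.1)) (c2 (h • w.2))
      (TensorProduct.map (ρ h) (σ h) m)) = (TensorProduct.lid F F)
        (TensorProduct.map (c1 w.1) (c2 w.2) m)
    congr 1
    rw [← LinearMap.comp_apply, ← TensorProduct.map_comp]
    have e1 : (c1 (h • w.1)) ∘ₗ ρ h = c1 w.1 := LinearMap.ext (hfr1.2.1 h w.1)
    have e2 : (c2 (h • w.2)) ∘ₗ σ h = c2 w.2 := LinearMap.ext (hfr2.2.1 h w.2)
    rw [e1, e2]
  · intro m
    induction m using TensorProduct.induction_on with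
    | zero => simp
    | tmul x y =>
      have hx : (∑ ω, c1 ω x • b1 ω) ⊗ₜ[F] (∑ ω, c2 ω y • b2 ω) = x ⊗ₜ[F] y := by
        rw [hfr1.2.2, hfr2.2.2]
      refine Eq.trans ?_ hx
      rw [TensorProduct.sum_tmul, Fintype.sum_prod_type]
      refine Finset.sum_congr rfl ?_
      intro i _
      rw [TensorProduct.tmul_sum]
      refine Finset.sum_congr rfl ?_
      intro j _
      show (TensorProduct.lid F F) (TensorProduct.map (c1 i) (c2 j) (x ⊗ₜ[F] y)) •
        (b1 i ⊗ₜ[F] b2 j) = (c1 i x • b1 i) ⊗ₜ[F] (c2 j y • b2 j)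
      rw [TensorProduct.map_tmul, TensorProduct.lid_tmul, TensorProduct.smul_tmul_smul,
        smul_eq_mul]
    | add x y hx hy =>
      simp only [map_add, add_smul, Finset.sum_add_distrib]
      rw [hx, hy]
  · intro w
    refine ⟨MulAction.stabilizer H w.1, MulAction.stabilizer H w.2, hst1 w.1, hst2 w.2, ?_⟩
    ext h
    rw [Subgroup.mem_inf, MulAction.mem_stabilizer_iff, MulAction.mem_stabilizer_iff,
      MulAction.mem_stabilizer_iff]
    exact Prod.ext_iff

/-- The action of V × V on G by left and right translation through u. -/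
@[reducible] def lract {V G : Type} [Group V] [Group G] (u : V →* G) :
    MulAction (V × V) G where
  smul := fun w g => u w.1 * g * (u w.2)⁻¹
  one_smul := by
    intro g
    show u (1 : V × V).1 * g * (u (1 : V × V).2)⁻¹ = g
    simp
  mul_smul := by
    intro x y g
    show u (x * y).1 * g * (u (x * y).2)⁻¹ = u x.1 * (u y.1 * g * (u y.2)⁻¹) * (u x.2)⁻¹
    simp [mul_assoc]

theorem sum_coe {F G : Type} [Field F] [Group G] [Fintype G] (x : MonoidAlgebra F G) :
    ∑ g : G, x.coeff g • MonoidAlgebra.of F G g = x := by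
  classical
  ext g
  rw [MonoidAlgebra.coeff_sum, Finsupp.finsetSum_apply, Finset.sum_eq_single g]
  · rw [MonoidAlgebra.coeff_smul_apply, MonoidAlgebra.of_apply, MonoidAlgebra.coeff_single,
      Finsupp.single_eq_same, smul_eq_mul, mul_one]
  · intro h _ hh
    rw [MonoidAlgebra.coeff_smul_apply, MonoidAlgebra.of_apply, MonoidAlgebra.coeff_single,
      Finsupp.single_eq_of_ne (Ne.symm hh), smul_zero]
  · intro h
    exact absurd (Finset.mem_univ g) h

/-- PSG: the corners of the group algebra as permutation summands. -/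
theorem psg : PsgStmt := by
  intro F G V A _ _ _ _ _ _ u e he hc i α hinj hmul him hα
  classical
  have : Fintype G := Fintype.ofFinite G
  have hex : ∀ g : G, ∃ a : A, i a = e * MonoidAlgebra.of F G g * e := by
    intro g
    rw [him]
    calc e * (e * MonoidAlgebra.of F G g * e) * e
        = (e * e) * MonoidAlgebra.of F G g * (e * e) := by simp only [mul_assoc]
      _ = _ := by rw [he]
  choose b hb using hex
  have hxe : ∀ a : A, e * i a * e = i a := fun a => (him (i a)).1 ⟨a, rfl⟩
  have hle : ∀ a : A, e * i a = i a := by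
    intro a
    have h1 := hxe a
    calc e * i a = e * (e * i a * e) := by rw [h1]
      _ = (e * e) * i a * e := by simp only [mul_assoc]
      _ = i a := by rw [he, h1]
  have hre : ∀ a : A, i a * e = i a := by
    intro a
    have h1 := hxe a
    calc i a * e = (e * i a * e) * e := by rw [h1]
      _ = e * i a * (e * e) := by simp only [mul_assoc]
      _ = i a := by rw [he, h1]
  have hbi : ∀ (w : V × V) (a : A), i (bi F α w a) =
      MonoidAlgebra.of F G (u w.1) * i a * MonoidAlgebra.of F G (u w.2)⁻¹ := by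
    intro w a
    have h1 : bi F α w a = α w.1 * (a * α w.2⁻¹) := rfl
    rw [h1, hmul, hmul, hα, hα, hc w.1]
    calc MonoidAlgebra.of F G (u w.1) * e * (i a * (e * MonoidAlgebra.of F G (u w.2⁻¹)))
        = MonoidAlgebra.of F G (u w.1) * (e * i a * e) * MonoidAlgebra.of F G (u w.2⁻¹) := by
          simp only [mul_assoc]
      _ = _ := by rw [hxe, map_inv]
  let act := lract u
  refine ⟨G, inferInstance, act, b,
    fun g => { toFun := fun a => (i a).coeff g
               map_add' := ?_
               map_smul' := ?_ }, ⟨?_, ?_, ?_⟩, ?_⟩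
  · intro x y
    rw [map_add, MonoidAlgebra.coeff_add, Finsupp.add_apply]
  · intro r x
    rw [map_smul, MonoidAlgebra.coeff_smul_apply, RingHom.id_apply]
  · intro w g
    apply hinj
    rw [hb, hbi, hb]
    show e * MonoidAlgebra.of F G (u w.1 * g * (u w.2)⁻¹) * e = _
    rw [map_mul, map_mul]
    have h2 : MonoidAlgebra.of F G (u w.2)⁻¹ * e = e * MonoidAlgebra.of F G (u w.2)⁻¹ := by
      have := hc w.2⁻¹
      rw [map_inv] at this
      exact this.symm
    calc e * (MonoidAlgebra.of F G (u w.1) * MonoidAlgebra.of F G g *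
          MonoidAlgebra.of F G (u w.2)⁻¹) * e
        = (e * MonoidAlgebra.of F G (u w.1)) * MonoidAlgebra.of F G g *
          (MonoidAlgebra.of F G (u w.2)⁻¹ * e) := by simp only [mul_assoc]
      _ = _ := by
          rw [h2, hc w.1]
          simp only [mul_assoc]
  · intro w g a
    show (i (bi F α w a)).coeff (u w.1 * g * (u w.2)⁻¹) = (i a).coeff g
    rw [hbi, MonoidAlgebra.of_apply, MonoidAlgebra.of_apply,
      MonoidAlgebra.coeff_mul_single_apply, MonoidAlgebra.coeff_single_mul_apply, one_mul,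
      mul_one]
    congr 1
    group
  · intro a
    apply hinj
    rw [map_sum]
    have h3 : ∀ g : G, i ((i a).coeff g • b g) =
        e * ((i a).coeff g • MonoidAlgebra.of F G g) * e := by
      intro g
      rw [map_smul, hb, mul_smul_comm, smul_mul_assoc]
    calc ∑ g : G, i ((i a).coeff g • b g)
        = ∑ g : G, e * ((i a).coeff g • MonoidAlgebra.of F G g) * e :=
          Finset.sum_congr rfl (fun g _ => h3 g)
      _ = e * (∑ g : G, (i a).coeff g • MonoidAlgebra.of F G g) * e := by
          rw [Finset.mul_sum, Finset.sum_mul]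
      _ = i a := by rw [sum_coe, hxe]
  · intro g
    refine ⟨g, ?_⟩
    intro w
    rw [MulAction.mem_stabilizer_iff]
    show u w.1 * g * (u w.2)⁻¹ = g ↔ _
    exact mul_inv_eq_iff_eq_mul

end Pool.Agent.PFC.H49b
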