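import Pool.Agent.PFC.StmtsB4b
import Pool.Agent.PFC.B4.Key

/-!
# Squad PFC, block B4b, row QTE: tensor products of Brauer quotients of algebras
-/

set_option autoImplicit false

open scoped BigOperators TensorProduct

namespace Pool.Agent.PFC.H65

section ideal
variable {F V A : Type} [Field F] [CommGroup V] [Ring A] [Algebra F A] (α : V →* A)

theorem cj_apply (v : V) (a : A) : cj F α v a = α v * (a * α v⁻¹) := rfl

theorem cj_mul (v : V) (a b : A) : cj F α v (a * b) = cj F α v a * cj F α v b := by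
  have h : α v⁻¹ * α v = 1 := by rw [← map_mul, inv_mul_cancel, map_one]
  rw [cj_apply, cj_apply, cj_apply]
  calc α v * (a * b * α v⁻¹) = α v * a * (1 * (b * α v⁻¹)) := by rw [one_mul]; simp only [mul_assoc]
    _ = α v * a * ((α v⁻¹ * α v) * (b * α v⁻¹)) := by rw [h]
    _ = α v * (a * α v⁻¹) * (α v * (b * α v⁻¹)) := by simp only [mul_assoc]

theorem fx_mul {Q : Subgroup V} {a b : A} (ha : a ∈ Fx (cj F α) Q) (hb : b ∈ Fx (cj F α) Q) :
    a * b ∈ Fx (cj F α) Q := by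
  intro v hv
  rw [cj_mul, ha v hv, hb v hv]

theorem bk_mul_left {Q : Subgroup V} {a z : A} (ha : a ∈ Fx (cj F α) Q)
    (hz : z ∈ BK (cj F α) Q) : a * z ∈ BK (cj F α) Q := by
  refine Submodule.span_induction (p := fun z _ => a * z ∈ BK (cj F α) Q) ?_ ?_ ?_ ?_ hz
  · rintro n ⟨P', S, m, hP, hS, hm, rfl⟩
    apply Submodule.subset_span
    refine ⟨P', S, a * m, hP, hS, fx_mul α (fun v hv => ha v (hP.le hv)) hm, ?_⟩
    rw [Finset.mul_sum]
    refine Finset.sum_congr rfl fun x hx => ?_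
    rw [cj_mul, ha x (hS.1 x hx)]
  · rw [mul_zero]
    exact Submodule.zero_mem _
  · intro b c _ _ hb hc
    rw [mul_add]
    exact Submodule.add_mem _ hb hc
  · intro c b _ hb
    rw [mul_smul_comm]
    exact Submodule.smul_mem _ c hb

theorem bk_mul_right {Q : Subgroup V} {a z : A} (ha : a ∈ Fx (cj F α) Q)
    (hz : z ∈ BK (cj F α) Q) : z * a ∈ BK (cj F α) Q := by
  refine Submodule.span_induction (p := fun z _ => z * a ∈ BK (cj F α) Q) ?_ ?_ ?_ ?_ hz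
  · rintro n ⟨P', S, m, hP, hS, hm, rfl⟩
    apply Submodule.subset_span
    refine ⟨P', S, m * a, hP, hS, fx_mul α hm (fun v hv => ha v (hP.le hv)), ?_⟩
    rw [Finset.sum_mul]
    refine Finset.sum_congr rfl fun x hx => ?_
    rw [cj_mul, ha x (hS.1 x hx)]
  · rw [zero_mul]
    exact Submodule.zero_mem _
  · intro b c _ _ hb hc
    rw [add_mul]
    exact Submodule.add_mem _ hb hc
  · intro c b _ hb
    rw [smul_mul_assoc]
    exact Submodule.smul_mem _ c hb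

end ideal

theorem cj_tens {F V : Type} [Field F] [CommGroup V] (X Y : IA F V) :
    cj F (X.tens Y).ι = tns (cj F X.ι) (cj F Y.ι) := by
  apply MonoidHom.ext
  intro v
  apply TensorProduct.ext'
  intro a b
  show ((X.ι v ⊗ₜ[F] Y.ι v : X.A ⊗[F] Y.A)) * ((a ⊗ₜ[F] b) * (X.ι v⁻¹ ⊗ₜ[F] Y.ι v⁻¹)) =
    (X.ι v * (a * X.ι v⁻¹)) ⊗ₜ[F] (Y.ι v * (b * Y.ι v⁻¹))
  rw [Algebra.TensorProduct.tmul_mul_tmul, Algebra.TensorProduct.tmul_mul_tmul]

theorem qte (hT : QtmStmt) (hK : QkeStmt) : QteStmt := by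
  intro ℓ _ F V _ _ _ _ X Y X' Y' Q β s β' s' hV hX hX'
  obtain ⟨hX1, hX2, hX3⟩ := hK ℓ F V X.A Y.A (cj F X.ι) (cj F Y.ι) Q β s hV hX.toBrS
  obtain ⟨hX1', hX2', hX3'⟩ := hK ℓ F V X'.A Y'.A (cj F X'.ι) (cj F Y'.ι) Q β' s' hV hX'.toBrS
  have hB0 := hT F V X.A Y.A X'.A Y'.A (cj F X.ι) (cj F Y.ι) (cj F X'.ι) (cj F Y'.ι) Q β s β' s'
    hX.toBrS hX'.toBrS
  have hB : BrS (cj F (X.tens X').ι) (cj F (Y.tens Y').ι) Q
      (TensorProduct.map β β' : X.A ⊗[F] X'.A →ₗ[F] Y.A ⊗[F] Y'.A)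
      (TensorProduct.map s s' : Y.A ⊗[F] Y'.A →ₗ[F] X.A ⊗[F] X'.A) := by
    rw [cj_tens X X', cj_tens Y Y']
    exact hB0
  obtain ⟨hZ1, hZ2, hZ3⟩ := hK ℓ F V (X.tens X').A (Y.tens Y').A (cj F (X.tens X').ι)
    (cj F (Y.tens Y').ι) Q (TensorProduct.map β β') (TensorProduct.map s s') hV hB
  -- multiplicativity on the products of fixed vectors
  have hmul : ∀ u w : Y.A ⊗[F] Y'.A,
      (TensorProduct.map β β' : X.A ⊗[F] X'.A →ₗ[F] Y.A ⊗[F] Y'.A)
        ((TensorProduct.map s s' : Y.A ⊗[F] Y'.A →ₗ[F] X.A ⊗[F] X'.A) u *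
          (TensorProduct.map s s' : Y.A ⊗[F] Y'.A →ₗ[F] X.A ⊗[F] X'.A) w) = u * w := by
    intro u w
    induction u using TensorProduct.induction_on with
    | zero => rw [map_zero, zero_mul, map_zero, zero_mul]
    | add u1 u2 h1 h2 => rw [map_add, add_mul, map_add, h1, h2, add_mul]
    | tmul y y' =>
      induction w using TensorProduct.induction_on with
      | zero => rw [map_zero, mul_zero, map_zero, mul_zero]
      | add w1 w2 h1 h2 => rw [map_add, mul_add, map_add, h1, h2, mul_add]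
      | tmul z z' =>
        rw [TensorProduct.map_tmul, TensorProduct.map_tmul, Algebra.TensorProduct.tmul_mul_tmul,
          TensorProduct.map_tmul, Algebra.TensorProduct.tmul_mul_tmul,
          hX.mul _ (hX1 y) _ (hX1 z), hX'.mul _ (hX1' y') _ (hX1' z'), hX.bs, hX.bs, hX'.bs,
          hX'.bs]
  refine { toBrS := hB, mul := ?_, cov := ?_ }
  · intro t ht t' ht'
    have hz := hZ3 t ht
    have hz' := hZ3 t' ht'
    have hS := hZ1 ((TensorProduct.map β β' : X.A ⊗[F] X'.A →ₗ[F] Y.A ⊗[F] Y'.A) t)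
    have h1 := bk_mul_right (X.tens X').ι ht' hz
    have h2 := bk_mul_left (X.tens X').ι hS hz'
    have h3 := (hZ2 _ (BK_le_Fx _ _ h1)).2 h1
    have h4 := (hZ2 _ (BK_le_Fx _ _ h2)).2 h2
    have h5 := hmul ((TensorProduct.map β β' : X.A ⊗[F] X'.A →ₗ[F] Y.A ⊗[F] Y'.A) t)
      ((TensorProduct.map β β' : X.A ⊗[F] X'.A →ₗ[F] Y.A ⊗[F] Y'.A) t')
    rw [sub_mul, map_sub, sub_eq_zero] at h3
    rw [mul_sub, map_sub, sub_eq_zero] at h4
    exact h3.trans (h4.trans h5)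
  · intro v
    show (TensorProduct.map β β' : X.A ⊗[F] X'.A →ₗ[F] Y.A ⊗[F] Y'.A) (X.ι v ⊗ₜ[F] X'.ι v) =
      Y.ι v ⊗ₜ[F] Y'.ι v
    rw [TensorProduct.map_tmul, hX.cov, hX'.cov]

end Pool.Agent.PFC.H65
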