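import Pool.Agent.PFC.StmtsB4a

namespace Hhelper1

open Pool.Agent.PFC

theorem UPW : UpwStmt := by
  intro ℓ _ F H M _ _ _ _ _ _ ρ X hPS C K hK hCK hC m hm
  obtain ⟨Ω, _, _, b, c, hfr, -⟩ := hPS
  rw [frame_iff hfr K hK hm]
  intro ω hω
  refine frame_BK hfr C (hK.to_le hCK) (hC (fun h hh => hm h (hCK hh))) ω ?_
  intro h hh
  exact hω h (hCK hh)

theorem HGS : HgsStmt := by
  intro F H M N _ _ _ _ _ _ _ ρ σ hρ
  obtain ⟨a, ha⟩ := hρ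
  constructor
  · intro i p hi hp hpi
    refine ⟨p ∘ₗ a ∘ₗ i, ?_⟩
    intro n
    have h1 : ∀ h : H, σ h ((p ∘ₗ a ∘ₗ i) (σ h⁻¹ n)) = p (ρ h (a (ρ h⁻¹ (i n)))) := by
      intro h
      rw [hp, LinearMap.comp_apply, LinearMap.comp_apply, hi]
    rw [Finset.sum_congr rfl (fun h _ => h1 h), ← map_sum, ha, hpi]
  · intro m hm
    refine ⟨a m, ?_⟩
    have h1 : ∀ h : H, ρ h (a (ρ h⁻¹ m)) = ρ h (a m) := by
      intro h
      have h2 : ρ h⁻¹ m = m := hm h⁻¹ (Subgroup.mem_top _)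
      rw [h2]
    rw [← Finset.sum_congr rfl (fun h _ => h1 h)]
    exact (ha m).symm

end Hhelper1
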